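import Pool.Agent.PChar823.Final

set_option autoImplicit false

namespace Pool.Agent.Results.MP_827d9d_co.PCharDuality

open PChar823

/-- There is a matroid `M` of rank `5` on `9` elements such that `15` lies in the p-characteristic
set of `M` but not in the p-characteristic set of the dual matroid. -/
theorem result : ∃ M : Matroid (Fin 9), M.E = Set.univ ∧ M.eRank = 5 ∧
    (15 : ℤ) ∈ pCharSet M ∧ (15 : ℤ) ∉ pCharSet M✶ :=
  PChar823.main

end Pool.Agent.Results.MP_827d9d_co.PCharDuality
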